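import Pool.Agent.K4H82.Spec.Defs

set_option autoImplicit false

namespace Pool.Agent.K4H82.Spec

open Finset

namespace Cls57

/-- the mask of the pairs in the triple `i` -/
def tm (i : ℕ) : ℕ := (citems.getD i (0, 0, 0)).2.1

/-- the triples which contain the pair `p` -/
def thr (p : ℕ) : List ℕ := (List.range 35).filter fun i => (tm i).testBit p

def conf (i : ℕ) (ch : List ℕ) : Bool := ch.any fun j => !(j == i) && !((tm i &&& tm j) == 0)

def leaf (ch : List ℕ) : Bool :=
  (List.range 30).any fun j => (List.range 35).all fun i => (PM j).testBit i == ch.contains i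

def srch : List ℕ → List ℕ → Bool
  | [], ch => leaf ch
  | p :: ps, ch => (thr p).all fun i => conf i ch || srch ps (if ch.contains i then ch else i :: ch)

theorem tm_iff : ∀ i < 35, ∀ p < 21, (tm i).testBit p = decide (pr p ⊆ tri i) := by
  decide +kernel

theorem tm_lt : ∀ i < 35, ∀ j < 35, (tm i &&& tm j) ≠ 0 → ∃ p < 21, (tm i).testBit p = true ∧
    (tm j).testBit p = true := by
  decide +kernel

theorem tm_ne : ∀ i < 35, ∃ p < 21, (tm i).testBit p = true := by
  decide +kernel

theorem pr_card : ∀ p < 21, (pr p).card = 2 := by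
  decide +kernel

theorem tri_inj : ∀ i < 35, ∀ j < 35, tri i = tri j → i = j := by
  decide +kernel

theorem tri_surj : ∀ T : Finset (Fin 7), T.card = 3 → ∃ i < 35, T = tri i := by
  decide +kernel

theorem five : ∀ p < 21, ((range 35).filter fun i => pr p ⊆ tri i).card = 5 := by
  decide +kernel

theorem srch_true : srch (List.range 21) [] = true := by
  decide +kernel

variable {g : ℕ → Prop}

theorem sound (h1 : ∀ p < 21, ∃ i < 35, g i ∧ (tm i).testBit p = true)
    (h2 : ∀ p < 21, ∀ i < 35, ∀ j < 35, g i → g j → (tm i).testBit p = true →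
      (tm j).testBit p = true → i = j) :
    ∀ (ps ch : List ℕ), (∀ p ∈ ps, p < 21) → (∀ i ∈ ch, i < 35 ∧ g i) → srch ps ch = true →
      ∃ ch' : List ℕ, leaf ch' = true ∧ (∀ i ∈ ch', i < 35 ∧ g i) ∧ (∀ i ∈ ch, i ∈ ch') ∧
        ∀ p ∈ ps, ∃ i ∈ ch', (tm i).testBit p = true := by
  intro ps
  induction ps with
  | nil =>
    intro ch _ hch hs
    exact ⟨ch, hs, hch, fun i hi => hi, fun p hp => absurd hp List.not_mem_nil⟩
  | cons p ps ih =>
    intro ch hp hch hs
    obtain ⟨i, hi, hgi, hti⟩ := h1 p (hp p List.mem_cons_self)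
    have hs' := List.all_eq_true.1 hs i (List.mem_filter.2 ⟨List.mem_range.2 hi, hti⟩)
    rw [Bool.or_eq_true] at hs'
    have hnc : ¬ conf i ch = true := by
      intro hc
      unfold conf at hc
      rw [List.any_eq_true] at hc
      obtain ⟨j, hj, hc⟩ := hc
      rw [Bool.and_eq_true, Bool.not_eq_true', Bool.not_eq_true', beq_eq_false_iff_ne,
        beq_eq_false_iff_ne] at hc
      obtain ⟨q, hq, hq1, hq2⟩ := tm_lt i hi j (hch j hj).1 hc.2
      exact hc.1 (h2 q hq j (hch j hj).1 i hi (hch j hj).2 hgi hq2 hq1)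
    have hs2 := hs'.resolve_left hnc
    have hch2 : ∀ j ∈ (if ch.contains i then ch else i :: ch), j < 35 ∧ g j := by
      intro j hj
      split_ifs at hj with h
      · exact hch j hj
      · rcases List.mem_cons.1 hj with rfl | hj
        · exact ⟨hi, hgi⟩
        · exact hch j hj
    obtain ⟨ch', a1, a2, a3, a4⟩ := ih _ (fun q hq => hp q (List.mem_cons_of_mem _ hq)) hch2 hs2
    have hi' : i ∈ ch' := by
      apply a3
      split_ifs with h
      · simpa using h
      · exact List.mem_cons_self
    refine ⟨ch', a1, a2, ?_, ?_⟩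
    · intro j hj
      apply a3
      split_ifs with h
      · exact hj
      · exact List.mem_cons_of_mem _ hj
    · intro q hq
      rcases List.mem_cons.1 hq with rfl | hq
      · exact ⟨i, hi', hti⟩
      · exact a4 q hq

end Cls57

open Cls57

theorem classify : ∀ D : Finset (Finset (Fin 7)), IsDesign 2 3 4 D → ∃ j < 30, D = Dn j := by
  classical
  intro D hD
  have key : ∀ p < 21, ((range 35).filter fun i => pr p ⊆ tri i ∧ tri i ∉ D).card = 1 := by
    intro p hp
    have e1 : (D.filter fun b => pr p ⊆ b) =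
        ((((range 35).filter fun i => pr p ⊆ tri i).filter fun i => tri i ∈ D)).image tri := by
      ext b
      rw [mem_filter, mem_image]
      constructor
      · rintro ⟨hb, hpb⟩
        obtain ⟨i, hi, rfl⟩ := tri_surj b (hD.1 b hb)
        exact ⟨i, mem_filter.2 ⟨mem_filter.2 ⟨mem_range.2 hi, hpb⟩, hb⟩, rfl⟩
      · rintro ⟨i, hi, rfl⟩
        rw [mem_filter, mem_filter] at hi
        exact ⟨hi.2, hi.1.2⟩
    have e2 := hD.2 (pr p) (pr_card p hp)
    rw [e1, card_image_of_injOn] at e2
    · have e3 := card_filter_add_card_filter_not (s := (range 35).filter fun i => pr p ⊆ tri i)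
        (fun i => tri i ∈ D)
      rw [five p hp, e2, filter_filter] at e3
      omega
    · intro i hi j hj hij
      rw [mem_coe, mem_filter, mem_filter, mem_range] at hi hj
      exact tri_inj i hi.1.1 j hj.1.1 hij
  have h1 : ∀ p < 21, ∃ i < 35, tri i ∉ D ∧ (tm i).testBit p = true := by
    intro p hp
    obtain ⟨i, hi⟩ := card_eq_one.1 (key p hp)
    have h : i ∈ (range 35).filter fun i => pr p ⊆ tri i ∧ tri i ∉ D := by
      rw [hi]
      exact mem_singleton_self i
    rw [mem_filter, mem_range] at h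
    exact ⟨i, h.1, h.2.2, by rw [tm_iff i h.1 p hp]; exact decide_eq_true h.2.1⟩
  have h2 : ∀ p < 21, ∀ i < 35, ∀ j < 35, tri i ∉ D → tri j ∉ D → (tm i).testBit p = true →
      (tm j).testBit p = true → i = j := by
    intro p hp i hi j hj gi gj ti tj
    rw [tm_iff i hi p hp, decide_eq_true_eq] at ti
    rw [tm_iff j hj p hp, decide_eq_true_eq] at tj
    exact card_le_one.1 (key p hp).le i (mem_filter.2 ⟨mem_range.2 hi, ti, gi⟩) j
      (mem_filter.2 ⟨mem_range.2 hj, tj, gj⟩)
  obtain ⟨ch, c1, c2, _, c4⟩ := sound (g := fun i => tri i ∉ D) h1 h2 (List.range 21) []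
    (fun p hp => List.mem_range.1 hp) (fun i hi => absurd hi List.not_mem_nil) srch_true
  unfold leaf at c1
  rw [List.any_eq_true] at c1
  obtain ⟨j, hj, c1⟩ := c1
  rw [List.mem_range] at hj
  rw [List.all_eq_true] at c1
  have c5 : ∀ i < 35, ((PM j).testBit i = true ↔ tri i ∉ D) := by
    intro i hi
    have h3 := c1 i (List.mem_range.2 hi)
    rw [beq_iff_eq] at h3
    rw [h3]
    constructor
    · intro h
      exact (c2 i (by simpa using h)).2
    · intro h
      obtain ⟨p, hp, ht⟩ := tm_ne i hi
      obtain ⟨i', hi', ht'⟩ := c4 p (List.mem_range.2 hp)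
      have := h2 p hp i hi i' (c2 i' hi').1 h (c2 i' hi').2 ht ht'
      rw [this]
      simpa using hi'
  refine ⟨j, hj, ?_⟩
  ext T
  unfold Dn
  rw [mem_image]
  constructor
  · intro hT
    obtain ⟨i, hi, rfl⟩ := tri_surj T (hD.1 T hT)
    refine ⟨i, mem_filter.2 ⟨mem_range.2 hi, ?_⟩, rfl⟩
    by_contra h
    rw [Bool.not_eq_false] at h
    exact (c5 i hi).1 h hT
  · rintro ⟨i, hi, rfl⟩
    rw [mem_filter, mem_range] at hi
    by_contra h
    have := (c5 i hi.1).2 h
    rw [hi.2] at this
    exact Bool.false_ne_true this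

end Pool.Agent.K4H82.Spec
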