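import Mathlib

/-!
# Minimal defining sets of designs: definitions, and the 30 simple 2-(7,3,4) designs
-/

set_option autoImplicit false

namespace Pool.Agent.K4H82.Spec

/-- `B` is the set of blocks of a (simple) `t-(v,k,l)` design on the points `0, ..., v-1`. -/
def IsDesign (t k l : ℕ) {v : ℕ} (B : Finset (Finset (Fin v))) : Prop :=
  (∀ b ∈ B, b.card = k) ∧
    ∀ T : Finset (Fin v), T.card = t → (B.filter (fun b => T ⊆ b)).card = l

/-- `S` is a defining set of the design `D`. -/
def IsDefining (t k l : ℕ) {v : ℕ} (D S : Finset (Finset (Fin v))) : Prop :=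
  S ⊆ D ∧ ∀ D' : Finset (Finset (Fin v)), IsDesign t k l D' → S ⊆ D' → D' = D

/-- `S` is a minimal defining set of the design `D`. -/
def IsMinimalDefining (t k l : ℕ) {v : ℕ} (D S : Finset (Finset (Fin v))) : Prop :=
  IsDefining t k l D S ∧ ∀ S' : Finset (Finset (Fin v)), S' ⊂ S → ¬ IsDefining t k l D S'

/-- The spectrum of the design `D`: the sizes of its minimal defining sets. -/
def Spectrum (t k l : ℕ) {v : ℕ} (D : Finset (Finset (Fin v))) : Set ℕ :=
  {n | ∃ S : Finset (Finset (Fin v)), IsMinimalDefining t k l D S ∧ S.card = n}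

/-- The 35 triples of points. -/
def triL : List (Finset (Fin 7)) := [
  {0,1,2}, {0,1,3}, {0,1,4}, {0,1,5}, {0,1,6}, {0,2,3}, {0,2,4},
  {0,2,5}, {0,2,6}, {0,3,4}, {0,3,5}, {0,3,6}, {0,4,5}, {0,4,6},
  {0,5,6}, {1,2,3}, {1,2,4}, {1,2,5}, {1,2,6}, {1,3,4}, {1,3,5},
  {1,3,6}, {1,4,5}, {1,4,6}, {1,5,6}, {2,3,4}, {2,3,5}, {2,3,6},
  {2,4,5}, {2,4,6}, {2,5,6}, {3,4,5}, {3,4,6}, {3,5,6}, {4,5,6}]

/-- The triple with number `i`. -/
def tri (i : ℕ) : Finset (Fin 7) := triL.getD i ∅

/-- The 30 Fano planes on the seven points, as bit masks. -/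
def PML : List ℕ := [
  412107265, 610288129, 419963905, 1113596929, 621287425, 1116739585,
  2290237506, 4366549058, 2298552450, 8627953794, 4378923266, 8632013058,
  2686599204, 4564729892, 2701166724, 17214736516, 4580214020, 17215653124,
  3223396392, 8859164712, 3229648968, 17247766600, 8866792200, 17249141512,
  5369827376, 9127465008, 5372937296, 17314743376, 9131033232, 17315201680]

/-- The Fano plane with number `j` as a bit mask. -/
def PM (j : ℕ) : ℕ := PML.getD j 0

/-- The complement of the Fano plane with number `j`: the triples which are not lines of it. -/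
def Dn (j : ℕ) : Finset (Finset (Fin 7)) :=
  ((Finset.range 35).filter (fun i => (PM j).testBit i = false)).image tri

/-- The list of the 28 triples which are not in the plane `0`, in some order: the number of the
triple, the mask of the planes which contain it, the mask of the planes which meet the later ones. -/
def items : List (ℕ × ℕ × ℕ) := [
  (25, 166440, 1073741822), (29, 302010386, 1073741822), (22, 335544970, 1073741822), (6, 204472512, 1073741822),
  (11, 3194928, 1073741822), (17, 167909440, 1073741822), (26, 10486930, 1073741822), (21, 8785930, 1073741820),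
  (30, 85196840, 1073741820), (12, 50334768, 1073741788), (31, 1331520, 1073741788), (1, 4032, 1073741724),
  (10, 201523212, 1073741724), (24, 83220, 1073741724), (13, 787212, 1073741716), (19, 170393620, 1073741696),
  (5, 51130368, 1073741696), (2, 258048, 1073737600), (18, 2663040, 1073737600), (32, 83960960, 1073729280),
  (8, 12782592, 1073729280), (33, 306711040, 1073727232), (3, 16515072, 1073202944), (15, 340869120, 1067894528),
  (16, 562300160, 1067631360), (34, 681738240, 1057014528), (7, 805356288, 1056964608), (4, 1056964608, 0)]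

/-- The 21 pairs. -/
def prL : List (Finset (Fin 7)) := [{0,1}, {0,2}, {0,3}, {0,4}, {0,5}, {0,6}, {1,2}, {1,3}, {1,4}, {1,5}, {1,6}, {2,3}, {2,4}, {2,5}, {2,6}, {3,4}, {3,5}, {3,6}, {4,5}, {4,6}, {5,6}]

/-- The pair with number `p`. -/
def pr (p : ℕ) : Finset (Fin 7) := prL.getD p ∅

/-- The list of the 35 triples: the number, the mask of the pairs in it, the mask of the pairs in
the later triples. -/
def citems : List (ℕ × ℕ × ℕ) := [
  (0, 67, 2097151), (1, 133, 2097151), (2, 265, 2097151), (3, 529, 2097151),
  (4, 1057, 2097150), (5, 2054, 2097150), (6, 4106, 2097150), (7, 8210, 2097150),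
  (8, 16418, 2097148), (9, 32780, 2097148), (10, 65556, 2097148), (11, 131108, 2097144),
  (12, 262168, 2097144), (13, 524328, 2097136), (14, 1048624, 2097088), (15, 2240, 2097088),
  (16, 4416, 2097088), (17, 8768, 2097088), (18, 17472, 2097024), (19, 33152, 2097024),
  (20, 66176, 2097024), (21, 132224, 2096896), (22, 262912, 2096896), (23, 525568, 2096640),
  (24, 1050112, 2095104), (25, 38912, 2095104), (26, 75776, 2095104), (27, 149504, 2093056),
  (28, 274432, 2093056), (29, 544768, 2088960), (30, 1073152, 2064384), (31, 360448, 2064384),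
  (32, 688128, 2031616), (33, 1245184, 1835008), (34, 1835008, 0)]

end Pool.Agent.K4H82.Spec
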