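import Pool.Agent.K4H82.Spec.Defs

/-!
# The 30 complements of Fano planes are 2-(7,3,4) designs
-/

set_option autoImplicit false
set_option maxRecDepth 100000

namespace Pool.Agent.K4H82.Spec

theorem tri_inj : ∀ i < 35, ∀ j < 35, tri i = tri j → i = j := by decide +kernel

theorem tri_card : ∀ i < 35, (tri i).card = 3 := by decide +kernel

theorem tri_surj : ∀ s : Finset (Fin 7), s.card = 3 → ∃ i < 35, tri i = s := by decide +kernel

theorem mem_Dn (j i : ℕ) (hi : i < 35) : tri i ∈ Dn j ↔ (PM j).testBit i = false := by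
  unfold Dn
  rw [Finset.mem_image]
  constructor
  · rintro ⟨i', hi', h⟩
    rw [Finset.mem_filter, Finset.mem_range] at hi'
    have := tri_inj i' hi'.1 i hi h
    subst this
    exact hi'.2
  · intro h
    exact ⟨i, by rw [Finset.mem_filter, Finset.mem_range]; exact ⟨hi, h⟩, rfl⟩

private theorem cnt : ∀ j < 30, ∀ T : Finset (Fin 7), T.card = 2 →
    (((Finset.range 35).filter (fun i => (PM j).testBit i = false)).filter
      (fun i => T ⊆ tri i)).card = 4 := by decide +kernel

theorem design_Dn : ∀ j < 30, IsDesign 2 3 4 (Dn j) := by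
  intro j hj
  refine ⟨?_, ?_⟩
  · intro b hb
    unfold Dn at hb
    rw [Finset.mem_image] at hb
    obtain ⟨i, hi, rfl⟩ := hb
    rw [Finset.mem_filter, Finset.mem_range] at hi
    exact tri_card i hi.1
  · intro T hT
    rw [← cnt j hj T hT]
    unfold Dn
    rw [Finset.filter_image]
    rw [Finset.card_image_of_injOn]
    intro a ha b hb hab
    simp only [Finset.coe_filter, Finset.mem_filter, Finset.mem_range, Set.mem_ofPred_eq] at ha hb
    exact tri_inj a ha.1.1 b hb.1.1 hab

end Pool.Agent.K4H82.Spec
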